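import Pool.Agent.Lib_helper59.HT.Defs

set_option autoImplicit false

open Finset Matrix

namespace Pool.Agent.HT

/-- indicator of a pair -/
def avoid_ind {n : ℕ} (a b u v : Fin n) : ℤ := if u = a ∧ v = b then 1 else 0

lemma avoid_chi {n : ℕ} (a b u v : Fin n) :
    chi a b (u, v) = avoid_ind a b u v - avoid_ind b a u v := by
  simp [chi, avoid_ind, Prod.ext_iff]

lemma avoid_bd_sq {n : ℕ} (a b c u v : Fin n) (hab : a ≠ b) (hbc : b ≠ c) (hca : c ≠ a)
    (huv : u ≠ v) :
    (bd (a, b, c) (u, v)) ^ 2 = avoid_ind a b u v + avoid_ind b a u v + avoid_ind b c u v +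
      avoid_ind c b u v + avoid_ind c a u v + avoid_ind a c u v := by
  simp only [bd, avoid_chi]
  simp only [avoid_ind]
  by_cases h1 : u = a
  · subst h1
    by_cases h2 : v = b
    · subst h2
      simp_all [eq_comm]
    · by_cases h3 : v = c
      · subst h3
        simp_all [eq_comm]
      · simp_all [eq_comm]
  · by_cases h1' : u = b
    · subst h1'
      by_cases h2 : v = a
      · subst h2
        simp_all [eq_comm]
      · by_cases h3 : v = c
        · subst h3
          simp_all [eq_comm]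
        · simp_all [eq_comm]
    · by_cases h1'' : u = c
      · subst h1''
        by_cases h2 : v = a
        · subst h2
          simp_all [eq_comm]
        · by_cases h3 : v = b
          · subst h3
            simp_all [eq_comm]
          · simp_all [eq_comm]
      · simp_all [eq_comm]

lemma avoid_bd_degen {n : ℕ} (a b c : Fin n) (e : Fin n × Fin n)
    (h : a = b ∨ b = c ∨ c = a) : bd (a, b, c) e = 0 := by
  rcases h with h | h | h <;> subst h <;> simp only [bd, chi] <;> ring

/-- `|bd t|² ≤ 3` -/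
lemma expm_bd_norm {n : ℕ} (t : Tri n) :
    ∑ e : E n, ((bd t e.1 : ℝ)) ^ 2 ≤ 3 := by
  obtain ⟨a, b, c⟩ := t
  by_cases h : a = b ∨ b = c ∨ c = a
  · rw [Finset.sum_eq_zero]
    · norm_num
    · intro e _
      rw [avoid_bd_degen a b c e.1 h]; simp
  push Not at h
  obtain ⟨hab, hbc, hca⟩ := h
  have key : ∀ x y : Fin n, x ≠ y →
      ∑ e : E n, (avoid_ind x y e.1.1 e.1.2 + avoid_ind y x e.1.1 e.1.2) ≤ 1 := by
    intro x y hxy
    rcases lt_or_gt_of_ne hxy with h | h
    · rw [Finset.sum_eq_single ⟨(x, y), h⟩]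
      · simp [avoid_ind, hxy]
      · rintro ⟨⟨u, v⟩, huv⟩ _ hne
        have h1 : ¬ (u = x ∧ v = y) := by
          rintro ⟨rfl, rfl⟩; exact hne rfl
        have h2 : ¬ (u = y ∧ v = x) := by
          rintro ⟨rfl, rfl⟩; exact absurd huv (not_lt.2 h.le)
        simp [avoid_ind, h1, h2]
      · intro h; exact absurd (Finset.mem_univ _) h
    · rw [Finset.sum_eq_single ⟨(y, x), h⟩]
      · simp [avoid_ind, hxy, hxy.symm]
      · rintro ⟨⟨u, v⟩, huv⟩ _ hne
        have h1 : ¬ (u = y ∧ v = x) := by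
          rintro ⟨rfl, rfl⟩; exact hne rfl
        have h2 : ¬ (u = x ∧ v = y) := by
          rintro ⟨rfl, rfl⟩; exact absurd huv (not_lt.2 h.le)
        simp [avoid_ind, h1, h2]
      · intro h; exact absurd (Finset.mem_univ _) h
  have h1 : ∑ e : E n, (bd (a, b, c) e.1) ^ 2 ≤ 3 := by
    have : ∀ e : E n, (bd (a, b, c) e.1) ^ 2 =
        (avoid_ind a b e.1.1 e.1.2 + avoid_ind b a e.1.1 e.1.2) +
        (avoid_ind b c e.1.1 e.1.2 + avoid_ind c b e.1.1 e.1.2) +
        (avoid_ind c a e.1.1 e.1.2 + avoid_ind a c e.1.1 e.1.2) := by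
      rintro ⟨⟨u, v⟩, huv⟩
      rw [avoid_bd_sq a b c u v hab hbc hca huv.ne]
      ring
    rw [Finset.sum_congr rfl fun e _ => this e, Finset.sum_add_distrib, Finset.sum_add_distrib]
    have k1 := key a b hab
    have k2 := key b c hbc
    have k3 := key c a hca
    linarith
  exact_mod_cast h1

end Pool.Agent.HT
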