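import Pool.Agent.Lib_helper21.HT.DET1

set_option autoImplicit false

open Finset Matrix

namespace Pool.Agent.HT

theorem det_le_prod_diag_pr {ι : Type} [Fintype ι] [DecidableEq ι] (A : Matrix ι ι ℝ)
    (hA : A.PosSemidef) : A.det ≤ ∏ i, A i i := by
  by_cases h0 : A.det = 0
  · rw [h0]
    exact Finset.prod_nonneg fun i _ => hA.diag_nonneg
  have hPD : A.PosDef := (hA.posDef_iff_det_ne_zero).2 h0
  have hpos : ∀ i, 0 < A i i := fun i => hPD.diag_pos
  set D : Matrix ι ι ℝ := diagonal (fun i => (Real.sqrt (A i i))⁻¹) with hD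
  have hDH : Dᴴ = D := by
    rw [hD, diagonal_conjTranspose]
    congr 1
  have hB : (D * A * D).PosSemidef := by
    have := hA.mul_mul_conjTranspose_same D
    rwa [hDH] at this
  have h1 := det1_le_exp _ hB
  have htr : (D * A * D).trace = Fintype.card ι := by
    rw [trace]
    have : ∀ i, (D * A * D).diag i = 1 := by
      intro i
      rw [diag_apply, hD, mul_diagonal, diagonal_mul]
      have hs : Real.sqrt (A i i) * Real.sqrt (A i i) = A i i := Real.mul_self_sqrt (hpos i).le
      have hs0 : Real.sqrt (A i i) ≠ 0 := (Real.sqrt_pos.2 (hpos i)).ne'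
      field_simp
      nlinarith [hs]
    rw [Finset.sum_congr rfl fun i _ => this i]
    simp
  rw [htr, sub_self, Real.exp_zero, det_mul, det_mul, hD, det_diagonal] at h1
  have h2 : (∏ i, (Real.sqrt (A i i))⁻¹) * (∏ i, (Real.sqrt (A i i))⁻¹) * ∏ i, A i i = 1 := by
    rw [← Finset.prod_mul_distrib, ← Finset.prod_mul_distrib]
    apply Finset.prod_eq_one
    intro i _
    have hs : Real.sqrt (A i i) * Real.sqrt (A i i) = A i i := Real.mul_self_sqrt (hpos i).le
    have hs0 : Real.sqrt (A i i) ≠ 0 := (Real.sqrt_pos.2 (hpos i)).ne'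
    field_simp
    nlinarith [hs]
  have h3 : 0 < ∏ i, A i i := Finset.prod_pos fun i _ => hpos i
  set P := ∏ i, (Real.sqrt (A i i))⁻¹
  have h4 : A.det * (P * P * ∏ i, A i i) ≤ ∏ i, A i i := by
    calc A.det * (P * P * ∏ i, A i i) = (P * A.det * P) * ∏ i, A i i := by ring
      _ ≤ 1 * ∏ i, A i i := mul_le_mul_of_nonneg_right h1 h3.le
      _ = _ := one_mul _
  rwa [h2, mul_one] at h4

/-- block form -/
lemma det2_fromBlocks {m k : Type} [Fintype m] [DecidableEq m] [Fintype k] [DecidableEq k]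
    (A : Matrix m m ℝ) (B : Matrix m k ℝ) (D : Matrix k k ℝ)
    (h : (fromBlocks A B Bᴴ D).PosDef) :
    (fromBlocks A B Bᴴ D).det ≤ A.det * ∏ i, D i i := by
  have hA : A.PosDef := by
    have := h.submatrix (e := Sum.inl) Sum.inl_injective
    have h2 : A = (fromBlocks A B Bᴴ D).submatrix Sum.inl Sum.inl := by
      ext i j; simp
    rwa [← h2] at this
  have : Invertible A := hA.isUnit.invertible
  have hS : (D - Bᴴ * A⁻¹ * B).PosSemidef := (PosDef.fromBlocks₁₁ B D hA).1 h.posSemidef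
  rw [det_fromBlocks₁₁, invOf_eq_nonsing_inv]
  refine mul_le_mul_of_nonneg_left ?_ hA.posSemidef.det_nonneg
  refine le_trans (det_le_prod_diag_pr _ hS) ?_
  refine Finset.prod_le_prod (fun i _ => hS.diag_nonneg) fun i _ => ?_
  rw [Matrix.sub_apply]
  have : (Bᴴ * A⁻¹ * B).PosSemidef := hA.inv.posSemidef.conjTranspose_mul_mul_same B
  have := this.diag_nonneg (i := i)
  linarith

theorem det_le_block_pr {ι : Type} [Fintype ι] [DecidableEq ι] (A : Matrix ι ι ℝ)
    (hA : A.PosSemidef) (F : Finset ι) :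
    A.det ≤ (A.submatrix (fun i : F => i.1) (fun i : F => i.1)).det * ∏ i ∈ Fᶜ, A i i := by
  by_cases h0 : A.det = 0
  · rw [h0]
    exact mul_nonneg (hA.submatrix _).det_nonneg (Finset.prod_nonneg fun i _ => hA.diag_nonneg)
  have hPD : A.PosDef := (hA.posDef_iff_det_ne_zero).2 h0
  let e : {a // a ∈ F} ⊕ {a // ¬ a ∈ F} ≃ ι := Equiv.sumCompl (fun i => i ∈ F)
  have hdet : A.det = (A.submatrix e e).det := (det_submatrix_equiv_self e A).symm
  have hPD' : (A.submatrix e e).PosDef := hPD.submatrix e.injective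
  rw [hdet]
  set A' := A.submatrix e e with hA'
  have hblk : A' = fromBlocks A'.toBlocks₁₁ A'.toBlocks₁₂ (A'.toBlocks₁₂)ᴴ A'.toBlocks₂₂ := by
    conv_lhs => rw [← fromBlocks_toBlocks A']
    congr 1
    ext i j
    have := hPD'.isHermitian.apply (Sum.inr i) (Sum.inl j)
    simpa [toBlocks₂₁, toBlocks₁₂, conjTranspose_apply] using this.symm
  rw [hblk] at hPD'
  have := det2_fromBlocks _ _ _ hPD'
  rw [← hblk] at this
  convert this using 2
  · rfl
  · rw [← Finset.prod_coe_sort]
    refine Fintype.prod_equiv (Equiv.subtypeEquivRight (by simp)) _ _ ?_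
    intro i
    rfl

end Pool.Agent.HT
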