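import Pool.Agent.Lib_helper59.HT.Defs2
import Pool.Agent.Lib_helper59.HT.A_QQ_psd
import Pool.Agent.Lib_helper59.HT.A_core
import Pool.Agent.Lib_helper21.HT.DET2
import Pool.Agent.Lib_helper21.HT.BDSQ

set_option autoImplicit false

open Finset Matrix

namespace Pool.Agent.HT

lemma avoid_sum_ind {n : ℕ} (f : Fin n → Fin n → Fin n → ℤ) (u v : Fin n) :
    ∑ a, ∑ b, ∑ c, f a b c * avoid_ind a b u v = ∑ c, f u v c := by
  rw [Finset.sum_eq_single u]
  · rw [Finset.sum_eq_single v]
    · simp [avoid_ind]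
    · intro b _ hb
      simp [avoid_ind, hb.symm]
    · intro h; exact absurd (Finset.mem_univ _) h
  · intro b _ hb
    simp [avoid_ind, hb.symm]
  · intro h; exact absurd (Finset.mem_univ _) h

open Classical in
lemma avoid_diag {n : ℕ} (Y : Tri n → Prop) (hY : SymT Y) (u v : Fin n) (huv : u ≠ v) :
    ∑ t : Tri n, (if Y t then (bd t (u, v)) ^ 2 else 0) =
      6 * (cnt (fun c : Fin n => Y (u, v, c)) : ℤ) := by
  set y : Fin n → Fin n → Fin n → ℤ := fun a b c => if Y (a, b, c) then 1 else 0 with hy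
  have hcyc : ∀ a b c, Y (a, b, c) ↔ Y (b, c, a) := by
    intro a b c
    exact ⟨fun h => (hY a b c h).2.1, fun h => (hY c a b ((hY b c a h).2.1)).2.1⟩
  have hsw : ∀ a b c, Y (a, b, c) ↔ Y (b, a, c) := by
    intro a b c
    exact ⟨fun h => (hY a b c h).1, fun h => (hY b a c h).1⟩
  have ycyc : ∀ a b c, y a b c = y b c a := by
    intro a b c; simp only [hy, hcyc a b c]
  have ysw : ∀ a b c, y a b c = y b a c := by
    intro a b c; simp only [hy, hsw a b c]
  have h1 : ∀ a b c : Fin n, (if Y (a, b, c) then (bd (a, b, c) (u, v)) ^ 2 else 0) =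
      y a b c * avoid_ind a b u v + y a b c * avoid_ind b a u v + y a b c * avoid_ind b c u v +
      y a b c * avoid_ind c b u v + y a b c * avoid_ind c a u v + y a b c * avoid_ind a c u v := by
    intro a b c
    by_cases h : Y (a, b, c)
    · have hab := (hY a b c h).2.2
      have hbc := (hY b c a ((hcyc a b c).1 h)).2.2
      have hca := (hY c a b ((hcyc b c a).1 ((hcyc a b c).1 h))).2.2
      simp only [h, if_true, hy]
      rw [avoid_bd_sq a b c u v hab hbc hca huv]
      ring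
    · simp [h, hy]
  have h2 : ∑ t : Tri n, (if Y t then (bd t (u, v)) ^ 2 else 0) =
      ∑ a, ∑ b, ∑ c, (if Y (a, b, c) then (bd (a, b, c) (u, v)) ^ 2 else 0) := by
    rw [Fintype.sum_prod_type]
    apply Finset.sum_congr rfl
    intro a _
    rw [Fintype.sum_prod_type]
  rw [h2]
  simp only [h1, Finset.sum_add_distrib]
  have hS : ∑ c, y u v c = (cnt (fun c : Fin n => Y (u, v, c)) : ℤ) := by
    rw [cnt, Finset.card_filter]
    push_cast
    rfl
  have e1 : ∑ a, ∑ b, ∑ c, y a b c * avoid_ind a b u v = ∑ c, y u v c := avoid_sum_ind _ u v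
  have e2 : ∑ a, ∑ b, ∑ c, y a b c * avoid_ind b a u v = ∑ c, y u v c := by
    rw [Finset.sum_comm, ← avoid_sum_ind (fun a b c => y a b c) u v]
    apply Finset.sum_congr rfl; intro b _
    apply Finset.sum_congr rfl; intro a _
    apply Finset.sum_congr rfl; intro c _
    rw [ysw]
  -- (b,c)
  have e3 : ∑ a, ∑ b, ∑ c, y a b c * avoid_ind b c u v = ∑ c, y u v c := by
    have : ∀ F : Fin n → Fin n → Fin n → ℤ, ∑ a, ∑ b, ∑ c, F a b c = ∑ b, ∑ c, ∑ a, F a b c := by
      intro F
      rw [Finset.sum_comm]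
      apply Finset.sum_congr rfl; intro b _
      rw [Finset.sum_comm]
    rw [this, ← avoid_sum_ind (fun a b c => y a b c) u v]
    apply Finset.sum_congr rfl; intro b _
    apply Finset.sum_congr rfl; intro c _
    apply Finset.sum_congr rfl; intro a _
    rw [ycyc]
  have e4 : ∑ a, ∑ b, ∑ c, y a b c * avoid_ind c b u v = ∑ c, y u v c := by
    have : ∀ F : Fin n → Fin n → Fin n → ℤ, ∑ a, ∑ b, ∑ c, F a b c = ∑ c, ∑ b, ∑ a, F a b c := by
      intro F
      calc ∑ a, ∑ b, ∑ c, F a b c = ∑ b, ∑ a, ∑ c, F a b c := Finset.sum_comm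
        _ = ∑ b, ∑ c, ∑ a, F a b c := by
          apply Finset.sum_congr rfl; intro b _
          rw [Finset.sum_comm]
        _ = _ := Finset.sum_comm
    rw [this, ← avoid_sum_ind (fun a b c => y a b c) u v]
    apply Finset.sum_congr rfl; intro c _
    apply Finset.sum_congr rfl; intro b _
    apply Finset.sum_congr rfl; intro a _
    rw [ycyc, ysw]
  have e5 : ∑ a, ∑ b, ∑ c, y a b c * avoid_ind c a u v = ∑ c, y u v c := by
    have : ∀ F : Fin n → Fin n → Fin n → ℤ, ∑ a, ∑ b, ∑ c, F a b c = ∑ c, ∑ a, ∑ b, F a b c := by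
      intro F
      calc ∑ a, ∑ b, ∑ c, F a b c = ∑ a, ∑ c, ∑ b, F a b c := by
            apply Finset.sum_congr rfl; intro a _
            rw [Finset.sum_comm]
        _ = _ := Finset.sum_comm
    rw [this, ← avoid_sum_ind (fun a b c => y a b c) u v]
    apply Finset.sum_congr rfl; intro c _
    apply Finset.sum_congr rfl; intro a _
    apply Finset.sum_congr rfl; intro b _
    rw [ycyc, ycyc]
  have e6 : ∑ a, ∑ b, ∑ c, y a b c * avoid_ind a c u v = ∑ c, y u v c := by
    have : ∀ F : Fin n → Fin n → Fin n → ℤ, ∑ a, ∑ b, ∑ c, F a b c = ∑ a, ∑ c, ∑ b, F a b c := by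
      intro F
      apply Finset.sum_congr rfl; intro a _
      rw [Finset.sum_comm]
    rw [this, ← avoid_sum_ind (fun a b c => y a b c) u v]
    apply Finset.sum_congr rfl; intro a _
    apply Finset.sum_congr rfl; intro c _
    apply Finset.sum_congr rfl; intro b _
    rw [ysw a b c, ycyc b a c]
  rw [e1, e2, e3, e4, e5, e6, hS]
  ring

theorem avoid_le_pr (n : ℕ) (hn : 1 ≤ n) (Y : Tri n → Prop) (hY : SymT Y) :
    mass (fun τ : E' n → Tri n => ∀ i, ¬ Y (τ i)) ≤
      Z n * ∏ e : E n, (1 - (cnt (fun c : Fin n => Y (e.1.1, e.1.2, c)) : ℝ) / n) := by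
  classical
  set x : Tri n → ℝ := fun t => if Y t then 0 else 1 with hx
  have h1 : mass (fun τ : E' n → Tri n => ∀ i, ¬ Y (τ i)) =
      ∑ τ : E' n → Tri n, wt τ * ∏ i, x (τ i) := by
    rw [mass]
    apply Finset.sum_congr rfl
    intro τ _
    by_cases h : ∀ i, ¬ Y (τ i)
    · rw [if_pos h, Finset.prod_eq_one, mul_one]
      intro i _
      simp [hx, h i]
    · rw [if_neg h]
      push Not at h
      obtain ⟨i, hi⟩ := h
      rw [Finset.prod_eq_zero (Finset.mem_univ i), mul_zero]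
      simp [hx, hi]
  rw [h1, core n hn x]
  refine mul_le_mul_of_nonneg_left ?_ (Finset.sum_nonneg fun τ _ => sq_nonneg _)
  have hn0 : (0 : ℝ) < n := by exact_mod_cast hn
  have hx0 : ∀ t, 0 ≤ x t := by
    intro t
    simp only [hx]
    split_ifs <;> norm_num
  refine le_trans (det_le_prod_diag_pr _ (QQ_psd n hn x hx0)) (le_of_eq ?_)
  apply Finset.prod_congr rfl
  rintro ⟨⟨u, v⟩, huv⟩ _
  rw [QQ, Matrix.sub_apply, Matrix.one_apply_eq, Matrix.smul_apply, Matrix.sum_apply]
  congr 1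
  have h2 : ∑ t : Tri n, ((1 - x t) • vecMulVec (fun e : E n => (bd t e.1 : ℝ))
      (fun e : E n => (bd t e.1 : ℝ))) ⟨(u, v), huv⟩ ⟨(u, v), huv⟩ =
      6 * (cnt (fun c : Fin n => Y (u, v, c)) : ℝ) := by
    have h3 := avoid_diag Y hY u v huv.ne
    have h4 : (∑ t : Tri n, (if Y t then ((bd t (u, v) : ℤ) : ℝ) ^ 2 else 0)) =
      6 * (cnt (fun c : Fin n => Y (u, v, c)) : ℝ) := by
      exact_mod_cast h3
    rw [← h4]
    apply Finset.sum_congr rfl
    intro t _
    rw [Matrix.smul_apply, vecMulVec_apply]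
    by_cases h : Y t
    · simp [hx, h, sq]
    · simp [hx, h]
  rw [h2, smul_eq_mul]
  field_simp

end Pool.Agent.HT
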