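import Pool.Agent.Lib_helper59.HT.Defs

set_option autoImplicit false

open Finset Matrix

namespace Pool.Agent.HT

lemma det1_self_dot {ι : Type} [Fintype ι] [DecidableEq ι] {A : Matrix ι ι ℝ}
    (hA : A.IsHermitian) (i : ι) :
    dotProduct (star (hA.eigenvectorBasis i : ι → ℝ)) (hA.eigenvectorBasis i : ι → ℝ) = 1 := by
  rw [dotProduct_comm, ← EuclideanSpace.inner_eq_star_dotProduct]
  rw [inner_self_eq_norm_sq_to_K, hA.eigenvectorBasis.orthonormal.1 i]
  simp

lemma det1_eig_ge {ι : Type} [Fintype ι] [DecidableEq ι] {A : Matrix ι ι ℝ}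
    (hA : A.IsHermitian) (c : ℝ) (h : (A - c • (1 : Matrix ι ι ℝ)).PosSemidef) (i : ι) :
    c ≤ hA.eigenvalues i := by
  have h1 := h.dotProduct_mulVec_nonneg (hA.eigenvectorBasis i : ι → ℝ)
  rw [sub_mulVec, smul_mulVec, one_mulVec, hA.mulVec_eigenvectorBasis, dotProduct_sub,
    dotProduct_smul, dotProduct_smul, det1_self_dot] at h1
  simp only [smul_eq_mul, mul_one] at h1
  linarith

lemma det1_eig_le {ι : Type} [Fintype ι] [DecidableEq ι] {A : Matrix ι ι ℝ}
    (hA : A.IsHermitian) (c : ℝ) (h : (c • (1 : Matrix ι ι ℝ) - A).PosSemidef) (i : ι) :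
    hA.eigenvalues i ≤ c := by
  have h1 := h.dotProduct_mulVec_nonneg (hA.eigenvectorBasis i : ι → ℝ)
  rw [sub_mulVec, smul_mulVec, one_mulVec, hA.mulVec_eigenvectorBasis, dotProduct_sub,
    dotProduct_smul, dotProduct_smul, det1_self_dot] at h1
  simp only [smul_eq_mul, mul_one] at h1
  linarith

/-- `det A ≤ exp (tr A - n)` for psd `A` -/
lemma det1_le_exp {ι : Type} [Fintype ι] [DecidableEq ι] (A : Matrix ι ι ℝ)
    (hA : A.PosSemidef) : A.det ≤ Real.exp (A.trace - Fintype.card ι) := by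
  rw [hA.isHermitian.det_eq_prod_eigenvalues, hA.isHermitian.trace_eq_sum_eigenvalues]
  have h1 : ∏ i, (hA.isHermitian.eigenvalues i) ≤
      ∏ i, Real.exp (hA.isHermitian.eigenvalues i - 1) := by
    apply Finset.prod_le_prod
    · intro i _
      exact hA.eigenvalues_nonneg i
    · intro i _
      have := Real.add_one_le_exp (hA.isHermitian.eigenvalues i - 1)
      linarith
  refine le_trans h1 (le_of_eq ?_)
  rw [← Real.exp_sum]
  congr 1
  rw [Finset.sum_sub_distrib]
  simp

theorem det_le_exp_trace_pr {ι : Type} [Fintype ι] [DecidableEq ι] (P : Matrix ι ι ℝ)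
    (hP : P.PosSemidef) : (1 + P).det ≤ Real.exp P.trace := by
  have h := det1_le_exp (1 + P) (PosSemidef.one.add hP)
  rw [trace_add, trace_one] at h
  simpa using h

theorem exp_le_det_one_sub_pr {ι : Type} [Fintype ι] [DecidableEq ι] (C : Matrix ι ι ℝ)
    (hC : C.PosSemidef) (hC2 : ((1 / 2 : ℝ) • (1 : Matrix ι ι ℝ) - C).PosSemidef) :
    Real.exp (-2 * C.trace) ≤ (1 - C).det := by
  rw [show (1 : Matrix ι ι ℝ) - C = 1 - C from rfl]
  have hH : (1 - C).IsHermitian := isHermitian_one.sub hC.isHermitian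
  rw [hH.det_eq_prod_eigenvalues]
  have htr : C.trace = Fintype.card ι - ∑ i, hH.eigenvalues i := by
    have := hH.trace_eq_sum_eigenvalues
    rw [trace_sub, trace_one] at this
    simp only [RCLike.ofReal_real_eq_id, id_eq] at this
    linarith
  have hlo : ∀ i, 1 / 2 ≤ hH.eigenvalues i := by
    intro i
    apply det1_eig_ge hH
    convert hC2 using 1
    have : (1 : Matrix ι ι ℝ) = (1 / 2 : ℝ) • (1 : Matrix ι ι ℝ) + (1 / 2 : ℝ) • (1 : Matrix ι ι ℝ) := by
      rw [← add_smul]; norm_num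
    nth_rw 1 [this]
    abel
  have hhi : ∀ i, hH.eigenvalues i ≤ 1 := by
    intro i
    apply det1_eig_le hH
    convert hC using 1
    rw [one_smul]; abel
  have h1 : ∏ i, Real.exp (-2 * (1 - hH.eigenvalues i)) ≤ ∏ i, (hH.eigenvalues i) := by
    apply Finset.prod_le_prod
    · intro i _
      positivity
    · intro i _
      -- exp(-2 x) ≤ 1 - x for 0 ≤ x ≤ 1/2
      set x := 1 - hH.eigenvalues i with hx
      have hx0 : 0 ≤ x := by have := hhi i; linarith
      have hx1 : x ≤ 1 / 2 := by have := hlo i; linarith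
      have h2 : hH.eigenvalues i = 1 - x := by rw [hx]; ring
      rw [h2]
      have h3 : 1 + 2 * x ≤ Real.exp (2 * x) := by
        have := Real.add_one_le_exp (2 * x); linarith
      have h4 : Real.exp (-2 * x) = (Real.exp (2 * x))⁻¹ := by
        rw [← Real.exp_neg]; congr 1; ring
      rw [h4]
      have h5 : (Real.exp (2 * x))⁻¹ ≤ (1 + 2 * x)⁻¹ := by
        apply inv_anti₀ (by linarith) h3
      refine le_trans h5 ?_
      rw [inv_le_iff_one_le_mul₀ (by linarith)]
      nlinarith
  calc Real.exp (-2 * C.trace) = ∏ i, Real.exp (-2 * (1 - hH.eigenvalues i)) := by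
        rw [← Real.exp_sum, htr]
        congr 1
        rw [← Finset.mul_sum, Finset.sum_sub_distrib]
        simp
    _ ≤ ∏ i, (hH.eigenvalues i) := h1
    _ = _ := by simp

end Pool.Agent.HT
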