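import Pool.Agent.Lib_helper21.HT.DET1

set_option autoImplicit false

open Finset Matrix
open scoped MatrixOrder

namespace Pool.Agent.HT

lemma det3_one_le {ι : Type} [Fintype ι] [DecidableEq ι] (P : Matrix ι ι ℝ)
    (hP : P.PosSemidef) : 1 ≤ (1 + P).det := by
  have hH : (1 + P).IsHermitian := isHermitian_one.add hP.isHermitian
  rw [hH.det_eq_prod_eigenvalues]
  have h1 : ∀ i, 1 ≤ hH.eigenvalues i := by
    intro i
    apply det1_eig_ge hH
    convert hP using 1
    rw [one_smul]; abel
  have : ∀ s : Finset ι, 1 ≤ ∏ i ∈ s, hH.eigenvalues i := by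
    intro s
    induction s using Finset.induction_on with
    | empty => simp
    | insert a s ha ih =>
      rw [Finset.prod_insert ha]
      nlinarith [h1 a]
  simpa using this univ

theorem det_mono_pr {ι : Type} [Fintype ι] [DecidableEq ι] (A B : Matrix ι ι ℝ)
    (hA : A.PosSemidef) (hAB : (B - A).PosSemidef) : A.det ≤ B.det := by
  have hB : B.PosSemidef := by
    have := hAB.add hA
    simpa using this
  by_cases h0 : A.det = 0
  · rw [h0]; exact hB.det_nonneg
  obtain ⟨C, hC⟩ := CStarAlgebra.nonneg_iff_eq_star_mul_self.mp hA.nonneg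
  rw [star_eq_conjTranspose] at hC
  have hC0 : C.det ≠ 0 := by
    intro h
    apply h0
    rw [hC, det_mul, h, mul_zero]
  have hCu : IsUnit C.det := isUnit_iff_ne_zero.2 hC0
  have hCu' : IsUnit (Cᴴ).det := by
    rw [det_conjTranspose]; exact hCu.star
  set P := (C⁻¹)ᴴ * (B - A) * C⁻¹ with hP
  have hPP : P.PosSemidef := hAB.conjTranspose_mul_mul_same C⁻¹
  have hBe : B = Cᴴ * (1 + P) * C := by
    have h1 : Cᴴ * P * C = B - A := by
      rw [hP, conjTranspose_nonsing_inv]
      calc Cᴴ * ((Cᴴ)⁻¹ * (B - A) * C⁻¹) * C = (Cᴴ * (Cᴴ)⁻¹) * (B - A) * (C⁻¹ * C) := by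
            simp only [Matrix.mul_assoc]
        _ = B - A := by
            rw [mul_nonsing_inv _ hCu', nonsing_inv_mul _ hCu, Matrix.one_mul, Matrix.mul_one]
    rw [Matrix.mul_add, Matrix.add_mul, h1, Matrix.mul_one, ← hC]
    abel
  have hdA : A.det = (Cᴴ).det * C.det := by rw [hC, det_mul]
  have hdB : B.det = A.det * (1 + P).det := by
    rw [hBe, det_mul, det_mul, hdA]; ring
  rw [hdB]
  have := det3_one_le P hPP
  have h2 := hA.det_nonneg
  nlinarith

end Pool.Agent.HT
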