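import Pool.Agent.Lib_helper59.HT.Defs2
import Pool.Agent.Lib_helper59.HT.A_core
import Pool.Agent.Lib_helper21.HT.DET1
import Pool.Agent.Lib_helper21.HT.BDSQ

set_option autoImplicit false

open Finset Matrix

namespace Pool.Agent.HT

theorem expm_pr (n : ℕ) (hn : 1 ≤ n) (C : Tri n → Prop) (y : ℝ) (hy : 0 ≤ y) :
    ∑ τ : E' n → Tri n, wt τ * (1 + y) ^ (cnt fun i => C (τ i)) ≤
      Z n * Real.exp (y / (2 * n) * cnt C) := by
  classical
  set x : Tri n → ℝ := fun t => if C t then 1 + y else 1 with hx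
  have h1 : ∀ τ : E' n → Tri n, (1 + y) ^ (cnt fun i => C (τ i)) = ∏ i, x (τ i) := by
    intro τ
    rw [hx]
    simp only [cnt]
    rw [Finset.prod_ite]
    simp only [Finset.prod_const, one_pow, mul_one]
  rw [Finset.sum_congr rfl fun τ _ => by rw [h1 τ], core n hn x]
  refine mul_le_mul_of_nonneg_left ?_ (Finset.sum_nonneg fun τ _ => sq_nonneg _)
  have hn0 : (0 : ℝ) < n := by exact_mod_cast hn
  -- QQ x = 1 + P
  set P : Matrix (E n) (E n) ℝ := (y / (6 * (n : ℝ))) • ∑ t ∈ univ.filter C,
    Matrix.vecMulVec (fun e : E n => (bd t e.1 : ℝ)) (fun e : E n => (bd t e.1 : ℝ)) with hP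
  have hQ : QQ x = 1 + P := by
    rw [QQ, hP, sub_eq_add_neg]
    congr 1
    rw [Finset.smul_sum, Finset.smul_sum, Finset.sum_filter, ← Finset.sum_neg_distrib]
    apply Finset.sum_congr rfl
    intro t _
    by_cases h : C t
    · simp only [hx, h, if_true]
      rw [smul_smul, ← neg_smul]
      congr 1
      ring
    · simp [hx, h]
  have hPP : P.PosSemidef := by
    rw [hP]
    refine PosSemidef.smul ?_ (by positivity)
    apply posSemidef_sum
    intro t _
    have := posSemidef_vecMulVec_self_star (fun e : E n => (bd t e.1 : ℝ))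
    simpa using this
  rw [hQ]
  refine le_trans (det_le_exp_trace_pr P hPP) (Real.exp_le_exp.2 ?_)
  rw [hP, trace_smul, trace_sum, smul_eq_mul]
  have h2 : ∑ t ∈ univ.filter C, (vecMulVec (fun e : E n => (bd t e.1 : ℝ))
      (fun e : E n => (bd t e.1 : ℝ))).trace ≤ ∑ t ∈ univ.filter C, 3 := by
    apply Finset.sum_le_sum
    intro t _
    refine le_trans (le_of_eq ?_) (expm_bd_norm t)
    rw [trace_vecMulVec, dotProduct]
    apply Finset.sum_congr rfl
    intro e _
    ring
  calc y / (6 * (n : ℝ)) * ∑ t ∈ univ.filter C, (vecMulVec (fun e : E n => (bd t e.1 : ℝ))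
      (fun e : E n => (bd t e.1 : ℝ))).trace ≤ y / (6 * (n : ℝ)) * ∑ t ∈ univ.filter C, 3 :=
        mul_le_mul_of_nonneg_left h2 (by positivity)
    _ = y / (2 * n) * cnt C := by
      rw [Finset.sum_const, nsmul_eq_mul]
      have : ((univ.filter C).card : ℝ) = cnt C := by
        rw [cnt]
      rw [this]
      field_simp
      ring

end Pool.Agent.HT
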